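import Mathlib

/-!
# HI, block HC5: the choice of the monomials
-/

set_option autoImplicit false

namespace Pool.Agent.Helper26.HI

/-- the exponents of total degree at most `A` -/
def simplex49 (r A : ℕ) : Finset (Fin r → ℕ) :=
  (Fintype.piFinset fun _ => Finset.range (A + 1)).filter fun k => ∑ i, k i ≤ A

theorem mem_simplex49 {r A : ℕ} (k : Fin r → ℕ) : k ∈ simplex49 r A ↔ ∑ i, k i ≤ A := by
  unfold simplex49
  rw [Finset.mem_filter, Fintype.mem_piFinset]
  constructor
  · exact fun h => h.2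
  · intro h
    refine ⟨fun i => ?_, h⟩
    rw [Finset.mem_range]
    have := Finset.single_le_sum (f := k) (fun i _ => Nat.zero_le _) (Finset.mem_univ i)
    omega

/-- the sum of the degrees of any `M` exponents, from below -/
theorem sum_ge49 {r A : ℕ} (T : Finset (Fin r → ℕ)) :
    T.card * (A + 1) ≤ ∑ k ∈ T, (∑ i, k i) + ∑ k ∈ simplex49 r A, (A + 1 - ∑ i, k i) := by
  have h1 : ∑ k ∈ T, (A + 1 - ∑ i, k i) ≤ ∑ k ∈ simplex49 r A, (A + 1 - ∑ i, k i) := by
    rw [← Finset.sum_filter_add_sum_filter_not T (fun k => k ∈ simplex49 r A)]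
    have h2 : ∑ k ∈ T.filter (fun k => ¬ k ∈ simplex49 r A), (A + 1 - ∑ i, k i) = 0 := by
      refine Finset.sum_eq_zero fun k hk => ?_
      have h3 := (Finset.mem_filter.mp hk).2
      rw [mem_simplex49] at h3
      omega
    rw [h2, add_zero]
    exact Finset.sum_le_sum_of_subset fun k hk => (Finset.mem_filter.mp hk).2
  have h4 : T.card * (A + 1) ≤ ∑ k ∈ T, ((∑ i, k i) + (A + 1 - ∑ i, k i)) := by
    rw [← smul_eq_mul, ← Finset.sum_const]
    refine Finset.sum_le_sum fun k _ => ?_
    omega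
  rw [Finset.sum_add_distrib] at h4
  omega

/-- the number of the exponents is small against their codegree -/
theorem card_lt49 (r c : ℕ) (hr : 1 ≤ r) : ∃ A : ℕ,
    c * (simplex49 r A).card < 2 * ∑ k ∈ simplex49 r A, (A + 1 - ∑ i, k i) := by
  set B : ℕ := c * (2 * r) ^ r with hB
  refine ⟨2 * r * B, ?_⟩
  set A : ℕ := 2 * r * B with hA
  have h1 : (simplex49 r A).card ≤ (2 * r) ^ r * (B + 1) ^ r := by
    have h2 : (simplex49 r A).card ≤ (A + 1) ^ r := by
      refine (Finset.card_filter_le _ _).trans ?_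
      rw [Fintype.card_piFinset]
      simp
    refine h2.trans ?_
    rw [← mul_pow]
    refine Nat.pow_le_pow_left ?_ r
    rw [hA]
    nlinarith
  have h3 : (r * B + 1) * (B + 1) ^ r ≤ ∑ k ∈ simplex49 r A, (A + 1 - ∑ i, k i) := by
    have h4 : (Fintype.piFinset fun _ : Fin r => Finset.range (B + 1)) ⊆ simplex49 r A := by
      intro k hk
      rw [Fintype.mem_piFinset] at hk
      rw [mem_simplex49]
      have h5 : ∑ i, k i ≤ ∑ _i : Fin r, B :=
        Finset.sum_le_sum fun i _ => Nat.lt_succ_iff.mp (Finset.mem_range.mp (hk i))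
      rw [Finset.sum_const, Finset.card_univ, Fintype.card_fin, smul_eq_mul] at h5
      rw [hA]
      nlinarith
    refine le_trans ?_ (Finset.sum_le_sum_of_subset h4)
    have h6 : ∑ _k ∈ (Fintype.piFinset fun _ : Fin r => Finset.range (B + 1)), (r * B + 1) ≤
        ∑ k ∈ (Fintype.piFinset fun _ : Fin r => Finset.range (B + 1)), (A + 1 - ∑ i, k i) := by
      refine Finset.sum_le_sum fun k hk => ?_
      rw [Fintype.mem_piFinset] at hk
      have h5 : ∑ i, k i ≤ ∑ _i : Fin r, B :=
        Finset.sum_le_sum fun i _ => Nat.lt_succ_iff.mp (Finset.mem_range.mp (hk i))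
      rw [Finset.sum_const, Finset.card_univ, Fintype.card_fin, smul_eq_mul] at h5
      have h7 : A = r * B + r * B := by rw [hA]; ring
      omega
    refine le_trans (le_of_eq ?_) h6
    rw [Finset.sum_const, Fintype.card_piFinset, smul_eq_mul]
    simp
    ring
  have hpos : 0 < (B + 1) ^ r := by positivity
  calc c * (simplex49 r A).card ≤ c * ((2 * r) ^ r * (B + 1) ^ r) := Nat.mul_le_mul_left _ h1
    _ = B * (B + 1) ^ r := by rw [hB]; ring
    _ < (2 * (r * B + 1)) * (B + 1) ^ r := by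
        refine Nat.mul_lt_mul_of_pos_right ?_ hpos
        nlinarith [Nat.zero_le B, Nat.mul_le_mul_right B hr]
    _ = 2 * ((r * B + 1) * (B + 1) ^ r) := by ring
    _ ≤ _ := Nat.mul_le_mul_left _ h3

/-- **HC5**: the choice of the monomials -/
theorem comb (r n κ₀ : ℕ) (hr : 1 ≤ r) (hn : 2 ≤ n) : ∃ (m : ℕ) (a : Fin m → Fin r → ℕ), Function.Injective a ∧
    ∀ κ : Fin m × Fin n → (Fin r →₀ ℕ), Function.Injective κ →
      ∑ j : Fin m × Fin n, ((∑ k, a j.1 k) + κ₀ * (j.2 : ℕ)) < ∑ j, ∑ k, κ j k := by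
  obtain ⟨A, hA⟩ := card_lt49 r (κ₀ * n) hr
  set S := simplex49 r A with hS
  refine ⟨S.card, fun i => (S.equivFin.symm i : Fin r → ℕ), ?_, ?_⟩
  · exact Subtype.val_injective.comp S.equivFin.symm.injective
  intro κ hκ
  set F : ℕ := ∑ k ∈ S, ∑ i, k i with hF
  set G : ℕ := ∑ k ∈ S, (A + 1 - ∑ i, k i) with hG
  have hFG : F + G = S.card * (A + 1) := by
    rw [hF, hG, ← Finset.sum_add_distrib, ← smul_eq_mul, ← Finset.sum_const]
    refine Finset.sum_congr rfl fun k hk => ?_
    rw [hS, mem_simplex49] at hk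
    omega
  -- the set of values
  have hT : S.card * n * (A + 1) ≤ (∑ j, ∑ k, κ j k) + G := by
    have hinj : Function.Injective (fun j : Fin S.card × Fin n => (⇑(κ j) : Fin r → ℕ)) :=
      DFunLike.coe_injective.comp hκ
    have h1 := sum_ge49 (A := A) (Finset.univ.image fun j : Fin S.card × Fin n => (⇑(κ j) : Fin r → ℕ))
    rw [Finset.card_image_of_injective _ hinj, Finset.card_univ, Fintype.card_prod, Fintype.card_fin,
      Fintype.card_fin, Finset.sum_image (fun x _ y _ h => hinj h)] at h1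
    exact h1
  -- the left side
  have hL : ∑ j : Fin S.card × Fin n, ((∑ k, (S.equivFin.symm j.1 : Fin r → ℕ) k) + κ₀ * (j.2 : ℕ)) =
      n * F + κ₀ * S.card * ∑ j ∈ Finset.range n, j := by
    rw [Finset.sum_add_distrib, Fintype.sum_prod_type, Fintype.sum_prod_type]
    congr 1
    · simp only [Finset.sum_const, Finset.card_univ, Fintype.card_fin, smul_eq_mul]
      rw [← Finset.mul_sum]
      congr 1
      rw [Equiv.sum_comp S.equivFin.symm (fun x : S => ∑ k, (x : Fin r → ℕ) k)]
      rw [hF]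
      exact Finset.sum_coe_sort S (fun k => ∑ i, k i)
    · simp only [Finset.sum_const, Finset.card_univ, Fintype.card_fin, smul_eq_mul]
      rw [← Finset.mul_sum, Fin.sum_univ_eq_sum_range (fun j => j) n]
      ring
  rw [hL]
  have hs : (∑ j ∈ Finset.range n, j) * 2 = n * (n - 1) := Finset.sum_range_id_mul_two n
  obtain ⟨q, rfl⟩ : ∃ q, n = q + 1 := ⟨n - 1, by omega⟩
  rw [Nat.add_sub_cancel] at hs
  set s := ∑ j ∈ Finset.range (q + 1), j with hsd
  have hq : 1 ≤ q := by omega
  -- `κ₀ m (q+1) < 2 G`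
  have h2 : κ₀ * S.card * s * 2 < 2 * (q * G) := by
    calc κ₀ * S.card * s * 2 = κ₀ * S.card * (s * 2) := by ring
      _ = (κ₀ * (q + 1) * S.card) * q := by rw [hs]; ring
      _ < (2 * G) * q := Nat.mul_lt_mul_of_pos_right hA (by omega)
      _ = 2 * (q * G) := by ring
  have h3 : S.card * (q + 1) * (A + 1) = (q + 1) * F + q * G + G := by
    calc S.card * (q + 1) * (A + 1) = (q + 1) * (S.card * (A + 1)) := by ring
      _ = (q + 1) * (F + G) := by rw [hFG]
      _ = (q + 1) * F + q * G + G := by ring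
  omega

end Pool.Agent.Helper26.HI
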